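import Pool.Agent.H70.UN.Targets2
import Pool.Agent.H54.PS.SDP

/-!
# MP_c62aed_lc, unified core: the core for one psd block (row CORE1, helper70)
-/

set_option autoImplicit false

namespace Pool.Agent.H70.UN

open Matrix Finset H43.PS H54.PS

theorem rpow_split {x p : ℝ} (hx : 0 ≤ x) (hp : 1 < p) : x ^ p = x ^ (p - 1) * x := by
  have h := Real.rpow_add_one' hx (y := p - 1) (by
    intro h
    linarith)
  rw [sub_add_cancel] at h
  exact h

/-- the average of `Tr P ^ p` -/
theorem phi_le {α ι : Type} [Fintype α] [Fintype ι] [DecidableEq ι] (TRP : T_TRP) {p r LAM : ℝ}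
    (hp : 1 < p) (hr : 0 ≤ r) (hL : 0 ≤ LAM) (P : α → Matrix ι ι ℝ) (hP : ∀ a, (P a).PosSemidef)
    (h1 : av (fun a => (P a).trace) ≤ r) (h2 : ∀ a, (P a).trace ≤ r * LAM) :
    av (fun a => tp p (P a)) ≤ (r * LAM) ^ (p - 1) * r := by
  have h3 : ∀ a, tp p (P a) ≤ (r * LAM) ^ (p - 1) * (P a).trace := by
    intro a
    have h0 := (hP a).trace_nonneg
    refine (TRP ι p (P a) hp (hP a)).2.trans ?_
    rw [rpow_split h0 hp]
    exact mul_le_mul_of_nonneg_right (Real.rpow_le_rpow h0 (h2 a) (by linarith)) h0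
  refine (av_mono h3).trans ?_
  rw [av_mul_left]
  exact mul_le_mul_of_nonneg_left h1 (Real.rpow_nonneg (mul_nonneg hr hL) _)

/-- the averages of a conditional density -/
theorem av_cond {Θ ι : Type} [Fintype Θ] [DecidableEq Θ] [Fintype ι] (hΘ : 0 < Fintype.card Θ)
    {N q : ℕ} (P : (Fin N → Fin q → Θ) → Matrix ι ι ℝ) (Sb : Matrix ι ι ℝ) (b : Fin N → Fin q)
    (F : (Fin N → Θ) → ℝ) :
    av (fun z => F z * av (fun a => ind a b z * (P a * Sb).trace)) =
      av (fun a : Fin N → Fin q → Θ => F (fun i => a i (b i)) * (P a * Sb).trace) := by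
  have e1 : (fun z => F z * av (fun a => ind a b z * (P a * Sb).trace)) =
      (fun z => av (fun a => F z * (ind a b z * (P a * Sb).trace))) := by
    funext z
    rw [av_mul_left]
  rw [e1, av_comm]
  have e2 : ∀ a : Fin N → Fin q → Θ,
      av (fun z => F z * (ind a b z * (P a * Sb).trace)) =
      F (fun i => a i (b i)) * (P a * Sb).trace := by
    intro a
    have e3 : (fun z => F z * (ind a b z * (P a * Sb).trace)) =
        (fun z => (P a * Sb).trace * (ind a b z * F z)) := by
      funext z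
      ring
    rw [e3, av_mul_left, av_ind hΘ]
    ring
  simp only [e2]

/-- the conditional density in coordinates -/
theorem rho_eq {Θ ι : Type} [Fintype Θ] [DecidableEq Θ] [Fintype ι]
    {N q : ℕ} (P : (Fin N → Fin q → Θ) → Matrix ι ι ℝ) (Sb : Matrix ι ι ℝ) (b : Fin N → Fin q)
    (z : Fin N → Θ) :
    av (fun a => ind a b z * (P a * Sb).trace) =
      ∑ x, ∑ y, (av (fun a => ind a b z * P a x y)) * Sb y x := by
  unfold av
  have h2 : ∀ a : Fin N → Fin q → Θ, ind a b z * (P a * Sb).trace =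
      ∑ x, ∑ y, ind a b z * P a x y * Sb y x := by
    intro a
    rw [Matrix.trace, Finset.mul_sum]
    refine Finset.sum_congr rfl fun x _ => ?_
    rw [Matrix.diag_apply, Matrix.mul_apply, Finset.mul_sum]
    refine Finset.sum_congr rfl fun y _ => ?_
    ring
  rw [Finset.sum_congr rfl fun a _ => h2 a, Finset.sum_comm, Finset.mul_sum]
  refine Finset.sum_congr rfl fun x _ => ?_
  rw [Finset.sum_comm, Finset.mul_sum]
  refine Finset.sum_congr rfl fun y _ => ?_
  rw [← Finset.sum_mul]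
  ring

theorem tr_mul_nonneg {ι : Type} [Fintype ι] {A B : Matrix ι ι ℝ} (hA : A.PosSemidef)
    (hB : B.PosSemidef) : 0 ≤ (A * B).trace := by
  classical
  obtain ⟨C, hC⟩ : ∃ C : Matrix ι ι ℝ, A = Cᴴ * C := by
    open scoped MatrixOrder in
    exact CStarAlgebra.nonneg_iff_eq_star_mul_self.mp hA.nonneg
  have h1 : (A * B).trace = (C * B * Cᴴ).trace := by
    rw [hC, Matrix.trace_mul_cycle, Matrix.trace_mul_cycle]
  rw [h1]
  exact (hB.mul_mul_conjTranspose_same C).trace_nonneg

/-- the trivial bound -/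
theorem bad_bd {α ι : Type} [Fintype α] [Fintype ι] (P : α → Matrix ι ι ℝ) (Sb : Matrix ι ι ℝ)
    (hP : ∀ a, (P a).PosSemidef) (hS : Sb.PosSemidef) (F : α → ℝ) {M : ℝ}
    (hF : ∀ a, |F a| ≤ M) (hM : 0 ≤ M) (h3 : av (fun a => (P a * Sb).trace) ≤ Sb.trace) :
    -(M * Sb.trace) ≤ av (fun a => F a * (P a * Sb).trace) := by
  have h1 : ∀ a, -M * (P a * Sb).trace ≤ F a * (P a * Sb).trace := fun a =>
    mul_le_mul_of_nonneg_right (neg_le_of_abs_le (hF a)) (tr_mul_nonneg (hP a) hS)
  refine le_trans ?_ (av_mono h1)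
  rw [av_mul_left]
  nlinarith

theorem pf_CORE1 (DECW : T_DECW) (PBW : T_PBW) (NUMX : T_NUMX) (TRP : T_TRP) (NNG : T_NNG) :
    T_CORE1 := by
  classical
  intro Θ _ _ p hp1 hp2 hΘ N q d hq hd ι _ _ P S D M K LAM R κ hM hK hLAM hR hP hS hD hpos h1 h2 h3
    h4
  have hp0 : (0 : ℝ) < p := lt_trans zero_lt_one hp1
  have hΘn : Nonempty Θ := Fintype.card_pos_iff.1 hΘ
  have hqn : Nonempty (Fin q) := ⟨⟨0, by omega⟩⟩
  have hK0 : 0 < K := by linarith
  obtain ⟨w, hw⟩ : ∃ w : (Fin N → Fin q) → ℝ, w = fun b => (S b).trace := ⟨_, rfl⟩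
  have hwb : ∀ b, w b = (S b).trace := fun b => by rw [hw]
  have hw0 : ∀ b, 0 ≤ w b := fun b => by rw [hwb]; exact (hS b).trace_nonneg
  have hww : av (fun b => (S b).trace) = av w := by rw [hw]
  rw [hww]
  have hDD : av (fun ab : (Fin N → Fin q → Θ) × (Fin N → Fin q) =>
      D (fun i => ab.1 i (ab.2 i)) * (P ab.1 * S ab.2).trace) =
      av (fun b : Fin N → Fin q => av (fun a : Fin N → Fin q → Θ =>
        D (fun i => a i (b i)) * (P a * S b).trace)) := by
    rw [av_prod]
  rw [hDD]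
  have hbad : ∀ b, -(M * w b) ≤ av (fun a : Fin N → Fin q → Θ =>
      D (fun i => a i (b i)) * (P a * S b).trace) := by
    intro b
    rw [hwb]
    exact bad_bd P (S b) hP (hS b) (fun a => D (fun i => a i (b i))) (fun a => hD _) hM (h3 b)
  have havw0 : 0 ≤ av w := av_nonneg hw0
  by_cases hW : ∑ b, w b = 0
  · have h0 : av w = 0 := by
      unfold av
      rw [hW, mul_zero]
    have h5 : av (fun b => -(M * w b)) = 0 := by
      rw [av_neg, av_mul_left, h0, mul_zero, neg_zero]
    rw [h0]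
    simp only [mul_zero, Real.sqrt_zero, add_zero, neg_zero]
    rw [← h5]
    exact av_mono hbad
  have hW0 : 0 < ∑ b, w b := lt_of_le_of_ne (sum_nonneg fun b _ => hw0 b) (Ne.symm hW)
  -- the order is positive
  have hι : Nonempty ι := by
    by_contra hne
    rw [not_nonempty_iff] at hne
    apply hW
    refine sum_eq_zero fun b _ => ?_
    rw [hwb, Matrix.trace, Finset.univ_eq_empty, Finset.sum_empty]
  have hr1 : (1 : ℝ) ≤ Fintype.card ι := by exact_mod_cast Fintype.card_pos
  have hr0 : (0 : ℝ) ≤ Fintype.card ι := by linarith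
  -- the decomposition
  obtain ⟨π, hπ⟩ : ∃ π : (Fin N → Fin q) → ℝ, π = fun b => w b / ∑ b', w b' := ⟨_, rfl⟩
  have hπb : ∀ b, π b = w b / ∑ b', w b' := fun b => by rw [hπ]
  have hπ0 : ∀ b, 0 ≤ π b := fun b => by rw [hπb]; exact div_nonneg (hw0 b) hW0.le
  have hπ1 : ∑ b, π b ≤ 1 := by
    simp only [hπb]
    rw [← Finset.sum_div, div_self hW]
  obtain ⟨s, hs1, hs2, hs3⟩ := DECW Θ p hp1 hp2 hΘ q (by omega) N π hπ0 hπ1
  obtain ⟨G, hG1, hG2, hG3⟩ := hs3 ι P hP
  obtain ⟨X, hX⟩ : ∃ X : (Fin N → Fin q) → ℝ, X = fun b =>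
    HX (Fintype.card Θ) p K (π b) N d q * ((G b).trace * w b) := ⟨_, rfl⟩
  have hXb : ∀ b, X b = HX (Fintype.card Θ) p K (π b) N d q * ((G b).trace * w b) :=
    fun b => by rw [hX]
  have hHX0 : ∀ b, 0 ≤ HX (Fintype.card Θ) p K (π b) N d q := by
    intro b
    unfold HX
    have e1 : 0 ≤ π b ^ (1 / (2 * p)) := Real.rpow_nonneg (hπ0 b) _
    have e2 : 0 ≤ (Fintype.card Θ : ℝ) / (p - 1) := div_nonneg (Nat.cast_nonneg _) (by linarith)
    positivity
  have hX0 : ∀ b, 0 ≤ X b := fun b => by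
    rw [hXb]
    exact mul_nonneg (hHX0 b) (mul_nonneg (hG1 b).trace_nonneg (hw0 b))
  have hgood : ∀ b, 0 < w b → ∏ k, (s b k)⁻¹ ≤ K ^ N * π b →
      -(M * (2 * Real.sqrt (av (fun a => (P a * S b).trace) * X b) + X b)) ≤
        av (fun a : Fin N → Fin q → Θ => D (fun i => a i (b i)) * (P a * S b).trace) := by
    intro b hb hb2
    have hpb : 0 < π b := by rw [hπb]; exact div_pos hb hW0
    have h5 := PBW Θ p hp1 hp2 hΘ N q d hq hd ι (G b) (S b) (s b) D M K (π b)
      (fun z => av (fun a => ind a b z * (P a * S b).trace)) (hG1 b) (hS b) (hs1 b) hD hpos hK hpb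
      hb2 (fun z => by
        rw [rho_eq]
        refine sum_congr rfl fun x _ => sum_congr rfl fun y _ => ?_
        rw [hG2])
    rw [av_cond hΘ P (S b) b D, ← hwb, ← hXb] at h5
    have h6 := av_cond hΘ P (S b) b (fun _ => 1)
    simp only [one_mul] at h6
    rw [h6] at h5
    exact h5
  -- the good and the bad choices
  obtain ⟨gd, hgd⟩ : ∃ gd : (Fin N → Fin q) → Prop,
    gd = fun b => 0 < w b ∧ ∏ k, (s b k)⁻¹ ≤ K ^ N * π b := ⟨_, rfl⟩
  have hgdb : ∀ b, gd b ↔ (0 < w b ∧ ∏ k, (s b k)⁻¹ ≤ K ^ N * π b) := fun b => by rw [hgd]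
  have hYw : ∀ b, 0 ≤ av (fun a => (P a * S b).trace) := fun b =>
    av_nonneg fun a => tr_mul_nonneg (hP a) (hS b)
  have hkey : ∀ b, -(M * ((if gd b then 0 else w b) + 2 * Real.sqrt (w b * X b) + X b)) ≤
      av (fun a : Fin N → Fin q → Θ => D (fun i => a i (b i)) * (P a * S b).trace) := by
    intro b
    have hsq : Real.sqrt (av (fun a => (P a * S b).trace) * X b) ≤ Real.sqrt (w b * X b) := by
      apply Real.sqrt_le_sqrt
      exact mul_le_mul_of_nonneg_right ((h3 b).trans (le_of_eq (hwb b).symm)) (hX0 b)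
    by_cases hb : gd b
    · rw [if_pos hb]
      obtain ⟨hb1, hb2⟩ := (hgdb b).1 hb
      refine le_trans ?_ (hgood b hb1 hb2)
      apply neg_le_neg
      apply mul_le_mul_of_nonneg_left _ hM
      linarith
    · rw [if_neg hb]
      refine le_trans ?_ (hbad b)
      apply neg_le_neg
      apply mul_le_mul_of_nonneg_left _ hM
      have := Real.sqrt_nonneg (w b * X b)
      have := hX0 b
      linarith
  refine le_trans ?_ (av_mono hkey)
  have hl : av (fun b => -(M * ((if gd b then 0 else w b) + 2 * Real.sqrt (w b * X b) + X b))) =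
      -(M * (av (fun b => if gd b then 0 else w b) + 2 * av (fun b => Real.sqrt (w b * X b)) +
        av X)) := by
    rw [av_neg, av_mul_left, av_add, av_add, av_mul_left]
  rw [hl]
  apply neg_le_neg
  apply mul_le_mul_of_nonneg_left _ hM
  -- the three terms
  have hXtot : av X ≤ E1 (Fintype.card Θ) p K LAM R N d q *
      (Fintype.card ι * Real.sqrt (κ * av w)) := by
    have h5 := NUMX (Fin N → Fin q) (Fintype.card Θ) p K LAM R κ (Fintype.card ι)
      (av (fun a => tp p (P a))) N d q w (fun b => tp p (G b)) (fun b => (G b).trace)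
      (by exact_mod_cast hΘ) hp1 hp2 hq hK hLAM hr1 hR
      (by rw [Fintype.card_fun, Fintype.card_fin, Fintype.card_fin]) hw0
      (fun b => by rw [hwb]; exact h4 b) hW0 (fun b => (NNG _ (G b)).2 p (hG1 b))
      (fun b => (hG1 b).trace_nonneg)
      (by
        intro b
        have h6 := (TRP _ p (G b) hp1 (hG1 b)).1
        have hcard : (Fintype.card ((Fin N → Option Θ) × ι) : ℝ) =
            ((Fintype.card Θ : ℝ) + 1) ^ N * (Fintype.card ι : ℝ) := by
          rw [Fintype.card_prod, Fintype.card_fun, Fintype.card_option, Fintype.card_fin]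
          push_cast
          ring
        rw [hcard] at h6
        exact h6)
      (by
        simp only [← hπb]
        exact hG3)
      (av_nonneg fun a => (NNG _ (P a)).2 p (hP a))
      (phi_le TRP hp1 hr0 (by linarith) P hP h1 h2)
    simp only [← hπb, ← hXb] at h5
    exact h5
  have hXt0 : 0 ≤ av X := av_nonneg hX0
  have hbadsum : av (fun b => if gd b then 0 else w b) ≤ (2 / K) ^ N * av w := by
    have h5 : ∀ b, (if gd b then 0 else w b) ≤
        (∑ b', w b') * ((K ^ N)⁻¹ * ∏ k, (s b k)⁻¹) := by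
      intro b
      have hpr : 0 ≤ ∏ k, (s b k)⁻¹ := prod_nonneg fun k _ =>
        inv_nonneg.2 (by linarith [(hs1 b k).1])
      by_cases hb : gd b
      · rw [if_pos hb]
        positivity
      · rw [if_neg hb]
        rw [hgdb, not_and_or, not_lt, not_le] at hb
        rcases hb with hb | hb
        · refine hb.trans ?_
          positivity
        · have h6 : w b = (∑ b', w b') * π b := by
            rw [hπb]
            field_simp
          rw [h6]
          apply mul_le_mul_of_nonneg_left _ hW0.le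
          rw [inv_mul_eq_div, le_div_iff₀ (by positivity)]
          linarith
    refine (av_mono h5).trans ?_
    have h6 : av (fun b => (∑ b', w b') * ((K ^ N)⁻¹ * ∏ k, (s b k)⁻¹)) =
        av w * (K ^ N)⁻¹ * ∑ b, ∏ k, (s b k)⁻¹ := by
      rw [av_mul_left, av_mul_left]
      unfold av
      ring
    rw [h6]
    calc av w * (K ^ N)⁻¹ * ∑ b, ∏ k, (s b k)⁻¹ ≤ av w * (K ^ N)⁻¹ * 2 ^ N := by
          apply mul_le_mul_of_nonneg_left hs2
          positivity
      _ = (2 / K) ^ N * av w := by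
          rw [div_pow]
          field_simp
  have hs := av_sqrt hw0 hX0
  have hs' : Real.sqrt (av w * av X) ≤ Real.sqrt (av w * (E1 (Fintype.card Θ) p K LAM R N d q *
      (Fintype.card ι * Real.sqrt (κ * av w)))) :=
    Real.sqrt_le_sqrt (mul_le_mul_of_nonneg_left hXtot havw0)
  linarith

end Pool.Agent.H70.UN
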