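import Pool.Agent.H70.UN.Targets2

/-! Composition of the rows of the board `uni_modules`. -/

set_option autoImplicit false

namespace Pool.Agent.H70.UN

open Matrix Finset H43.PS

theorem skelU (SPL : T_SPL) (CVX : T_CVX) (NNG : T_NNG) (RIX : T_RIX) (VEC : T_VEC) (TRP : T_TRP)
    (PDP : Pool.Agent.H96.KX.S_PDP)
    (STIW : T_SPL → T_CVX → T_NNG → T_STIW) (STPW : T_STIW → T_NNG → T_STPW)
    (DECW : T_STPW → T_RIX → T_NNG → T_DECW) (CCSW : T_CCSW) (VLMW : T_CCSW → T_VLMW)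
    (PBW : T_VEC → T_VLMW → T_PBW) (NUMX : T_NUMX)
    (CORE1 : T_DECW → T_PBW → T_NUMX → T_TRP → T_NNG → T_CORE1) (WHI : T_WHI) (SUMF : T_SUMF)
    (FAMU : T_CORE1 → T_WHI → T_SUMF → T_FAMU) (LASA : T_LASA)
    (LASB : Pool.Agent.H96.KX.S_PDP → T_LASB) : T_FAMU ∧ T_LASF :=
  ⟨FAMU (CORE1 (DECW (STPW (STIW SPL CVX NNG) NNG) RIX NNG) (PBW VEC (VLMW CCSW)) NUMX TRP NNG)
    WHI SUMF, lasf_of LASA (LASB PDP)⟩

end Pool.Agent.H70.UN
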