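import Pool.Agent.H70.UN.Targets

/-!
# Unified core for linear, second order and semidefinite relaxations: intermediate targets
-/

set_option autoImplicit false

namespace Pool.Agent.H70.UN

open Matrix Finset H43.PS

/-- the coefficient of the high part of one choice of probability `pb`. -/
noncomputable def HX (Q p K pb : ℝ) (N d q : ℕ) : ℝ :=
  2 ^ N * (Q / (p - 1)) ^ N * Real.sqrt ((q : ℝ) ^ (N - d)) * K ^ N * pb ^ (1 / (2 * p))

/-- PBW: the inequality for one good choice `b`. -/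
def T_PBW : Prop := ∀ (Θ : Type) [Fintype Θ] [DecidableEq Θ] (p : ℝ), 1 < p → p < 3 / 2 →
  0 < Fintype.card Θ → ∀ (N q d : ℕ), 1 < q → d ≤ N → ∀ (ι : Type) [Fintype ι] [DecidableEq ι]
  (G : Matrix ((Fin N → Option Θ) × ι) ((Fin N → Option Θ) × ι) ℝ) (S : Matrix ι ι ℝ)
  (s : Fin N → ℝ) (D : (Fin N → Θ) → ℝ) (M K pb : ℝ) (rho : (Fin N → Θ) → ℝ),
  G.PosSemidef → S.PosSemidef → (∀ k, 1 ≤ s k ∧ s k ≤ q) → (∀ z, |D z| ≤ M) → PosFam d D →
  1 ≤ K → 0 < pb → ∏ k, (s k)⁻¹ ≤ K ^ N * pb →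
  (∀ z, rho z = ∑ x, ∑ y, (∑ u, ∑ u', czw (fun k => sg (Fintype.card Θ) p (s k)) z u *
    czw (fun k => sg (Fintype.card Θ) p (s k)) z u' * G (u, x) (u', y)) * S y x) →
  - (M * (2 * Real.sqrt (av rho * (HX (Fintype.card Θ) p K pb N d q * (G.trace * S.trace))) +
      HX (Fintype.card Θ) p K pb N d q * (G.trace * S.trace))) ≤ av (fun z => D z * rho z)

/-- NUMX: the sum of the high parts over all choices. -/
def T_NUMX : Prop := ∀ (β : Type) [Fintype β] (Q p K LAM R κ r Φ : ℝ) (N d q : ℕ)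
  (w t tr : β → ℝ), 1 ≤ Q → 1 < p → p < 3 / 2 → 1 < q → 1 ≤ K → 1 ≤ LAM → 1 ≤ r → r ≤ R →
  Fintype.card β = q ^ N → (∀ b, 0 ≤ w b) → (∀ b, w b ≤ κ) → 0 < ∑ b, w b → (∀ b, 0 ≤ t b) →
  (∀ b, 0 ≤ tr b) → (∀ b, tr b ≤ ((Q + 1) ^ N * r) ^ (1 - 1 / p) * t b ^ (1 / p)) →
  ∑ b, (w b / ∑ b', w b') * t b ≤ KU Q p ^ N * Φ → 0 ≤ Φ → Φ ≤ (r * LAM) ^ (p - 1) * r →
  av (fun b => HX Q p K (w b / ∑ b', w b') N d q * (tr b * w b)) ≤
    E1 Q p K LAM R N d q * (r * Real.sqrt (κ * av w))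

/-- SUMF: the sum over the blocks. -/
def T_SUMF : Prop := ∀ (I Z : Type) [Fintype Z] [Nonempty Z] (I' : Finset I) (y : I → Z → ℝ)
  (r κ : I → ℝ) (c e0 al R : ℝ), (∀ i z, 0 ≤ y i z) → (∀ i, 0 ≤ r i) → (∀ i, 0 ≤ κ i) → 0 ≤ c →
  0 ≤ e0 → 0 ≤ al → 0 ≤ R → ∑ i ∈ I', av (y i) ≤ al → ∑ i ∈ I', r i ^ 2 * κ i ≤ al * R →
  ∑ i ∈ I', av (fun z => e0 * y i z +
      2 * Real.sqrt (y i z * (c * (r i * Real.sqrt (κ i * y i z)))) +
      c * (r i * Real.sqrt (κ i * y i z))) ≤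
    al * (e0 + 2 * Real.sqrt (c * Real.sqrt R) + c * Real.sqrt R)

open Pool.Agent.H1.LP (Loc supp ip) in
open Pool.Agent.H96.KX (PDz) in
/-- LASA: positivity of the pseudo-density of a local system along families. -/
def T_LASA : Prop := ∀ (p B d : ℕ) [Fact p.Prime] (S : Loc p B d), PosFam d (PDz S)

open Pool.Agent.H1.LP (Loc supp ip) in
open Pool.Agent.H96.KX (PDz) in
/-- LASB: the pseudo-density vanishes on the points which violate an equation. -/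
def T_LASB : Prop := ∀ (p B d : ℕ) [Fact p.Prime] (S : Loc p B d), ∀ l ∈ S.La, ∀ d' : ℕ,
  d' + (supp l).card ≤ d → ∀ UU : Finset (Finset (Fin B)), (∀ T ∈ UU, ∀ T' ∈ UU, (T ∪ T').card ≤ d') →
    ∀ F : Finset (Fin B) → (Fin B → ZMod p) → ℝ,
      (∀ T ∈ UU, ∀ z z' : Fin B → ZMod p, (∀ i ∈ T, z i = z' i) → F T z = F T z') →
      ∑ z, (if ip l z ≠ S.ga l then PDz S z else 0) * (∑ T ∈ UU, F T z) ^ 2 = 0

open Pool.Agent.H1.LP (Loc supp ip) in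
open Pool.Agent.H96.KX (PDz) in
/-- LASF from LASA and LASB. -/
theorem lasf_of (hA : T_LASA) (hB : T_LASB) : T_LASF := by
  intro p B d _ S
  refine ⟨hA p B d S, fun l hl d' hd => ⟨?_, ?_⟩⟩
  · intro UU hU F hF
    exact (hB p B d S l hl d' hd UU hU F hF).ge
  · intro UU hU F hF
    have h := hB p B d S l hl d' hd UU hU F hF
    have h2 : ∑ z, (if ip l z ≠ S.ga l then - PDz S z else 0) * (∑ T ∈ UU, F T z) ^ 2 =
        -∑ z, (if ip l z ≠ S.ga l then PDz S z else 0) * (∑ T ∈ UU, F T z) ^ 2 := by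
      rw [← Finset.sum_neg_distrib]
      refine Finset.sum_congr rfl fun z _ => ?_
      split_ifs <;> ring
    rw [h2, h, neg_zero]

end Pool.Agent.H70.UN
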