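import Pool.Agent.H43.PS.AllA
import Pool.Agent.H86.KX.PDP
import Pool.Agent.H70.UN.Skel
import Pool.Agent.H70.UN.CORE1
import Pool.Agent.H11.UN.CCSW
import Pool.Agent.H32.UN.VLMW
import Pool.Agent.H34.UN.SUMF
import Pool.Agent.H45.UN.WHI
import Pool.Agent.H55.UNI.FAMU
import Pool.Agent.H71.UN.DECW
import Pool.Agent.H71.UN.LASB
import Pool.Agent.H73.UN.LASA
import Pool.Agent.H73.UN.NUMX
import Pool.Agent.H85.UN.STIW
import Pool.Agent.H94.UN.STPW

/-! The board `uni_modules`, composed: `T_FAMU` and `T_LASF`. -/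

set_option autoImplicit false

namespace Pool.Agent.H70.UN

open Matrix Finset H43.PS

theorem allU (PBW : T_VEC → T_VLMW → T_PBW) : T_FAMU ∧ T_LASF :=
  skelU H43.PS.All.spl H43.PS.All.cvx H43.PS.All.nng H43.PS.All.rix H43.PS.All.vec H43.PS.All.trp
    Pool.Agent.H86.KX.pf_PDP Pool.Agent.H85.UN.pf_STIW pf_STPW pf_DECW pf_CCSW pf_VLMW PBW pf_NUMX
    pf_CORE1 Pool.Agent.H45.UN.pf_WHI pf_SUMF pf_FAMU pf_LASA pf_LASB

end Pool.Agent.H70.UN
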