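import Pool.Agent.H43.PS.Targets

/-!
# Unified core for linear, second order and semidefinite relaxations (MP_c62aed_lc): definitions

The square decomposition of `H43.PS` with weights which depend on the blocks, positivity on squares
along families of sets, and the constants of the unified core (board `uni_modules`, helper70).
-/

set_option autoImplicit false

namespace Pool.Agent.H70.UN

open Matrix Finset H43.PS

noncomputable section

/-- the weight: `sg Q p s ^ (2 p) = (p - 1) / Q * s` -/
def sg (Q p s : ℝ) : ℝ := ((p - 1) / Q * s) ^ (1 / (2 * p))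

/-- product of the coefficients, the weights depend on the block. -/
def czw {Θ : Type} [DecidableEq Θ] {N : ℕ} (σ : Fin N → ℝ) (z : Fin N → Θ)
    (u : Fin N → Option Θ) : ℝ :=
  ∏ i, cc (σ i) (z i) (u i)

/-- the coordinates with a value. -/
def spp {Θ : Type} {N : ℕ} (u : Fin N → Option Θ) : Finset (Fin N) :=
  univ.filter (fun i => (u i).isSome = true)

/-- `D` is nonnegative on squares of sums of functions which depend on the sets of a family in which
any two sets have a union with at most `d` elements. -/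
def PosFam {Θ : Type} [Fintype Θ] {N : ℕ} (d : ℕ) (D : (Fin N → Θ) → ℝ) : Prop :=
  ∀ UU : Finset (Finset (Fin N)), (∀ T ∈ UU, ∀ T' ∈ UU, (T ∪ T').card ≤ d) →
    ∀ F : Finset (Fin N) → (Fin N → Θ) → ℝ,
      (∀ T ∈ UU, ∀ z z' : Fin N → Θ, (∀ i ∈ T, z i = z' i) → F T z = F T z') →
      0 ≤ ∑ z, D z * (∑ T ∈ UU, F T z) ^ 2

/-- the factor per block of the decomposition. -/
def KU (Q p : ℝ) : ℝ := 2 * (Q + 1) ^ (p - 1)

/-- the error of the unified core: `C1 ^ N LAM ^ (p - 1) q ^ (- N / 2 + ...)`. -/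
def E1 (Q p K LAM R : ℝ) (N d q : ℕ) : ℝ :=
  (2 * (Q + 1) * KU Q p * (Q / (p - 1)) * K) ^ N * (LAM * R) ^ (p - 1) *
    Real.sqrt ((q : ℝ) ^ (N - d)) * ((q : ℝ) ^ N) ^ (-(1 / (2 * p)))

/-- the total relative error. -/
def ERR (Q p K LAM R : ℝ) (N d q : ℕ) : ℝ :=
  (2 / K) ^ N + 2 * Real.sqrt (E1 Q p K LAM R N d q * Real.sqrt R) +
    E1 Q p K LAM R N d q * Real.sqrt R

end

end Pool.Agent.H70.UN
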