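import Pool.Agent.H70.UN.Defs
import Pool.Agent.H96.KX.Targets

/-!
# Unified core for linear, second order and semidefinite relaxations (MP_c62aed_lc): targets

Board `uni_modules` (helper70).  Mathematics: /team-store/H70_UNI.md.
-/

set_option autoImplicit false

namespace Pool.Agent.H70.UN

open Matrix Finset H43.PS

/-- STIW: one block (table `a : Fin q → Θ`), with the errors `e b` of the choices `b`, which do not
depend on the weight `σ`. -/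
def T_STIW : Prop := ∀ (κ Θ : Type) [Fintype κ] [DecidableEq κ] [Fintype Θ] [DecidableEq Θ]
  (p : ℝ), 1 < p → p < 3 / 2 → 0 < Fintype.card Θ →
  ∀ (q : ℕ) (g : (Fin q → Θ) → Matrix κ κ ℝ), (∀ a, (g a).PosSemidef) →
  ∃ e : Fin q → ℝ, (∀ b, 0 ≤ e b) ∧
    ∑ b, e b ≤ (Fintype.card Θ : ℝ) / (p - 1) * (av (fun a => tp p (g a)) - tp p (avm g)) ∧
    ∀ (b : Fin q) (σ : ℝ), 0 < σ →
      ∃ G : Matrix (Option Θ × κ) (Option Θ × κ) ℝ, G.PosSemidef ∧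
        (∀ θ x y, av (fun a : Fin q → Θ => (if a b = θ then (Fintype.card Θ : ℝ) else 0) * g a x y) =
          ∑ u, ∑ u', cc σ θ u * cc σ θ u' * G (u, x) (u', y)) ∧
        tp p G ≤ ((Fintype.card Θ : ℝ) + 1) ^ (p - 1) *
          (av (fun a => tp p (g a)) + σ ^ (2 * p) * e b)

/-- STPW: one block, with a distribution `π` on the choices and weights `σ b`. -/
def T_STPW : Prop := ∀ (κ Θ : Type) [Fintype κ] [DecidableEq κ] [Fintype Θ] [DecidableEq Θ]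
  (p : ℝ), 1 < p → p < 3 / 2 → 0 < Fintype.card Θ →
  ∀ (q : ℕ) (g : (Fin q → Θ) → Matrix κ κ ℝ), (∀ a, (g a).PosSemidef) →
  ∀ (π σ : Fin q → ℝ), (∀ b, 0 ≤ π b) → ∑ b, π b ≤ 1 → (∀ b, 0 < σ b) →
    (∀ b, π b * σ b ^ (2 * p) ≤ (p - 1) / Fintype.card Θ) →
  ∃ G : Fin q → Matrix (Option Θ × κ) (Option Θ × κ) ℝ, (∀ b, (G b).PosSemidef) ∧
    (∀ b θ x y, av (fun a : Fin q → Θ => (if a b = θ then (Fintype.card Θ : ℝ) else 0) * g a x y) =
      ∑ u, ∑ u', cc (σ b) θ u * cc (σ b) θ u' * G b (u, x) (u', y)) ∧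
    ∑ b, π b * tp p (G b) ≤ KU (Fintype.card Θ) p * av (fun a => tp p (g a))

/-- DECW: all blocks, with a distribution `π` on the choices; `s b k` is the inverse of the
conditional probability of `b k` given the earlier choices, cut at `q`. -/
def T_DECW : Prop := ∀ (Θ : Type) [Fintype Θ] [DecidableEq Θ] (p : ℝ), 1 < p → p < 3 / 2 →
  0 < Fintype.card Θ → ∀ (q : ℕ), 0 < q → ∀ (N : ℕ) (π : (Fin N → Fin q) → ℝ),
  (∀ b, 0 ≤ π b) → ∑ b, π b ≤ 1 →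
  ∃ s : (Fin N → Fin q) → Fin N → ℝ, (∀ b k, 1 ≤ s b k ∧ s b k ≤ q) ∧
    ∑ b, ∏ k, (s b k)⁻¹ ≤ 2 ^ N ∧
    ∀ (ι : Type) [Fintype ι] [DecidableEq ι] (P : (Fin N → Fin q → Θ) → Matrix ι ι ℝ),
      (∀ a, (P a).PosSemidef) →
      ∃ G : (Fin N → Fin q) → Matrix ((Fin N → Option Θ) × ι) ((Fin N → Option Θ) × ι) ℝ,
        (∀ b, (G b).PosSemidef) ∧
        (∀ b z x y, av (fun a => ind a b z * P a x y) =
          ∑ u, ∑ u', czw (fun k => sg (Fintype.card Θ) p (s b k)) z u *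
            czw (fun k => sg (Fintype.card Θ) p (s b k)) z u' * G b (u, x) (u', y)) ∧
        ∑ b, π b * tp p (G b) ≤ KU (Fintype.card Θ) p ^ N * av (fun a => tp p (P a))

/-- CCSW: the high part is small. -/
def T_CCSW : Prop := ∀ (Θ : Type) [Fintype Θ] [DecidableEq Θ] (N : ℕ) (σ : Fin N → ℝ)
  (UU : Finset (Finset (Fin N))) (τ : ℝ) (w : (Fin N → Option Θ) → ℝ) (z : Fin N → Θ), 0 ≤ τ →
  (∀ k, 0 < σ k) → (∀ T : Finset (Fin N), T ∉ UU → ∏ k ∈ T, ((σ k)⁻¹) ^ 2 ≤ τ) →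
  (∑ u ∈ univ.filter (fun u => spp u ∉ UU), czw σ z u * w u) ^ 2 ≤ 2 ^ N * τ * ∑ u, w u ^ 2

/-- VLMW: the vector lemma for a family of sets. -/
def T_VLMW : Prop := ∀ (Θ : Type) [Fintype Θ] [DecidableEq Θ] (N d : ℕ) (σ : Fin N → ℝ)
  (UU : Finset (Finset (Fin N))) (τ M : ℝ) (μ : Type) [Fintype μ]
  (w : (Fin N → Option Θ) → μ → ℝ) (D : (Fin N → Θ) → ℝ) (X : ℝ), 0 < Fintype.card Θ → 0 ≤ τ →
  (∀ k, 0 < σ k) → (∀ T : Finset (Fin N), T ∉ UU → ∏ k ∈ T, ((σ k)⁻¹) ^ 2 ≤ τ) →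
  (∀ T ∈ UU, ∀ T' ∈ UU, (T ∪ T').card ≤ d) →
  (∀ z, |D z| ≤ M) → PosFam d D → 2 ^ N * τ * ∑ u, ∑ m, w u m ^ 2 ≤ X →
  - (M * (2 * Real.sqrt (av (fun z : Fin N → Θ => ∑ m, (∑ u, czw σ z u * w u m) ^ 2) * X) + X)) ≤
    av (fun z : Fin N → Θ => D z * ∑ m, (∑ u, czw σ z u * w u m) ^ 2)

/-- CORE1: the core for one psd block. -/
def T_CORE1 : Prop := ∀ (Θ : Type) [Fintype Θ] [DecidableEq Θ] (p : ℝ), 1 < p → p < 3 / 2 →
  0 < Fintype.card Θ → ∀ (N q d : ℕ), 1 < q → d ≤ N → ∀ (ι : Type) [Fintype ι] [DecidableEq ι]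
  (P : (Fin N → Fin q → Θ) → Matrix ι ι ℝ) (S : (Fin N → Fin q) → Matrix ι ι ℝ)
  (D : (Fin N → Θ) → ℝ) (M K LAM R κ : ℝ), 0 ≤ M → 1 ≤ K → 1 ≤ LAM → (Fintype.card ι : ℝ) ≤ R →
  (∀ a, (P a).PosSemidef) → (∀ b, (S b).PosSemidef) → (∀ z, |D z| ≤ M) → PosFam d D →
  av (fun a => (P a).trace) ≤ Fintype.card ι → (∀ a, (P a).trace ≤ Fintype.card ι * LAM) →
  (∀ b, av (fun a => (P a * S b).trace) ≤ (S b).trace) → (∀ b, (S b).trace ≤ κ) →
  - (M * ((2 / K) ^ N * av (fun b => (S b).trace) +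
      2 * Real.sqrt (av (fun b => (S b).trace) * (E1 (Fintype.card Θ) p K LAM R N d q *
        (Fintype.card ι * Real.sqrt (κ * av (fun b => (S b).trace))))) +
      E1 (Fintype.card Θ) p K LAM R N d q *
        (Fintype.card ι * Real.sqrt (κ * av (fun b => (S b).trace))))) ≤
    av (fun ab : (Fin N → Fin q → Θ) × (Fin N → Fin q) =>
      D (fun i => ab.1 i (ab.2 i)) * (P ab.1 * S ab.2).trace)

/-- WHI: whitening of one psd block. -/
def T_WHI : Prop := ∀ (ι α β : Type) [Fintype ι] [DecidableEq ι] [Fintype α] [Fintype β] [Nonempty α]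
  (P : α → Matrix ι ι ℝ) (S : β → Matrix ι ι ℝ) (η : ℝ), 0 < η → (∀ a, (P a).PosSemidef) →
  (∀ x, (S x).PosSemidef) →
  ∃ (P' : α → Matrix ι ι ℝ) (S' : β → Matrix ι ι ℝ), (∀ a, (P' a).PosSemidef) ∧
    (∀ x, (S' x).PosSemidef) ∧ (∀ a x, (P' a * S' x).trace = (P a * S x).trace) ∧
    av (fun a => (P' a).trace) ≤ Fintype.card ι ∧
    (∀ x, av (fun a => (P a * S x).trace) ≤ (S' x).trace) ∧
    (∀ x, (S' x).trace ≤ av (fun a => (P a * S x).trace) + η)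

/-- FAMU: a finite family of psd blocks.  Formulas = tables `a`, points = `(ζ, b)`, outer point
`ζ k + a k (b k)`; `use a` = the blocks used by `a`; `A'` = the formulas which are kept; the
conclusion holds for every pseudo-density `D` and every subset `I'` of the blocks. -/
def T_FAMU : Prop := ∀ (Θ : Type) [Fintype Θ] [DecidableEq Θ] [AddCommGroup Θ] (p : ℝ), 1 < p →
  p < 3 / 2 → ∀ (N q d : ℕ), 1 < q → d ≤ N → ∀ (I : Type) [Fintype I] [DecidableEq I] (r : I → ℕ)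
  (P : (i : I) → (Fin N → Fin q → Θ) → Matrix (Fin (r i)) (Fin (r i)) ℝ)
  (S : (i : I) → (Fin N → Θ) × (Fin N → Fin q) → Matrix (Fin (r i)) (Fin (r i)) ℝ)
  (A : Finset (Fin N → Fin q → Θ)) (use : (Fin N → Fin q → Θ) → Finset I) (m R K LAM : ℝ),
  (∀ i a, (P i a).PosSemidef) → (∀ i x, (S i x).PosSemidef) → 0 < m → 1 ≤ R → 1 ≤ K → 1 ≤ LAM →
  (∀ i a, a ∉ A → P i a = 0) → (∀ a i, i ∉ use a → P i a = 0) →
  (∀ a ∈ A, ∑ i ∈ use a, (r i : ℝ) ^ 2 ≤ R) → (∀ a ∈ A, ∀ x, ∑ i, (P i a * S i x).trace ≤ m) →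
  ∃ A' : Finset (Fin N → Fin q → Θ), A' ⊆ A ∧
    (((A \ A').card : ℕ) : ℝ) * LAM ≤ (Fintype.card I : ℝ) * Fintype.card (Fin N → Fin q → Θ) ∧
    ∀ (M : ℝ) (D : (Fin N → Θ) → ℝ) (I' : Finset I), 0 ≤ M → (∀ z, |D z| ≤ M) → PosFam d D →
      - (2 * M * m * (A.card * Fintype.card ((Fin N → Θ) × (Fin N → Fin q))) *
          ERR (Fintype.card Θ) p K LAM R N d q) ≤
        ∑ a ∈ A', ∑ x : (Fin N → Θ) × (Fin N → Fin q),
          D (fun k => x.1 k + a k (x.2 k)) * ∑ i ∈ I', (P i a * S i x).trace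

open Pool.Agent.H1.LP (Loc supp ip) in
open Pool.Agent.H96.KX (PDz) in
/-- LASF: positivity of the pseudo-density of a local system along families, and its vanishing on
the points which violate an equation. -/
def T_LASF : Prop := ∀ (p B d : ℕ) [Fact p.Prime] (S : Loc p B d),
  PosFam d (PDz S) ∧ ∀ l ∈ S.La, ∀ d' : ℕ, d' + (supp l).card ≤ d →
    PosFam d' (fun z => if ip l z ≠ S.ga l then PDz S z else 0) ∧
    PosFam d' (fun z => if ip l z ≠ S.ga l then - PDz S z else 0)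

end Pool.Agent.H70.UN
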